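import Mathlib
import Pool.Agent.Helper14D.Stm

/-!
# The generic projection: reduction to coordinates

Linear change of variables, from `S_deg` (coordinates) and `S_bpf` to the degree of the
projection given by the `yy j`.
-/

set_option autoImplicit false

open MvPolynomial

namespace Pool.Agent.Helper82.VD

open Pool.Agent.Helper14D

/-! ### Linear substitutions -/

/-- `X j ↦ ∑ i, A j i * X i` -/
noncomputable def sub {k : Type} [Field k] {N : ℕ} (A : Matrix (Fin (N + 1)) (Fin (N + 1)) k) :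
    MvPolynomial (Fin (N + 1)) k →ₐ[k] MvPolynomial (Fin (N + 1)) k :=
  aeval (fun j => ∑ i, C (A j i) * X i)

lemma sub_X {k : Type} [Field k] {N : ℕ} (A : Matrix (Fin (N + 1)) (Fin (N + 1)) k)
    (j : Fin (N + 1)) : sub A (X j) = ∑ i, C (A j i) * X i := by
  rw [sub, aeval_X]

lemma sub_C {k : Type} [Field k] {N : ℕ} (A : Matrix (Fin (N + 1)) (Fin (N + 1)) k)
    (a : k) : sub A (C a) = C a := (sub A).commutes a

lemma sub_sub {k : Type} [Field k] {N : ℕ} (A B : Matrix (Fin (N + 1)) (Fin (N + 1)) k) :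
    (sub A).comp (sub B) = sub (B * A) := by
  apply MvPolynomial.algHom_ext
  intro j
  rw [AlgHom.comp_apply, sub_X, sub_X, map_sum]
  simp only [map_mul, sub_C, sub_X, Finset.mul_sum]
  rw [Finset.sum_comm]
  refine Finset.sum_congr rfl fun l _ => ?_
  rw [Matrix.mul_apply, map_sum, Finset.sum_mul]
  refine Finset.sum_congr rfl fun i _ => ?_
  rw [map_mul]
  ring

lemma sub_one {k : Type} [Field k] {N : ℕ} :
    sub (1 : Matrix (Fin (N + 1)) (Fin (N + 1)) k) = AlgHom.id k _ := by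
  apply MvPolynomial.algHom_ext
  intro j
  rw [sub_X, AlgHom.id_apply, Finset.sum_eq_single j]
  · rw [Matrix.one_apply_eq, C_1, one_mul]
  · intro i _ hi
    rw [Matrix.one_apply_ne hi.symm, C_0, zero_mul]
  · intro h; exact absurd (Finset.mem_univ _) h

/-- the automorphism given by an invertible matrix -/
noncomputable def subE {k : Type} [Field k] {N : ℕ} (A : Matrix (Fin (N + 1)) (Fin (N + 1)) k)
    (hA : A.det ≠ 0) :
    MvPolynomial (Fin (N + 1)) k ≃ₐ[k] MvPolynomial (Fin (N + 1)) k :=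
  AlgEquiv.ofAlgHom (sub A) (sub A⁻¹)
    (by rw [sub_sub, Matrix.nonsing_inv_mul _ (isUnit_iff_ne_zero.mpr hA), sub_one])
    (by rw [sub_sub, Matrix.mul_nonsing_inv _ (isUnit_iff_ne_zero.mpr hA), sub_one])

lemma subE_apply {k : Type} [Field k] {N : ℕ} (A : Matrix (Fin (N + 1)) (Fin (N + 1)) k)
    (hA : A.det ≠ 0) (f : MvPolynomial (Fin (N + 1)) k) : subE A hA f = sub A f := rfl

lemma sub_sub_inv {k : Type} [Field k] {N : ℕ} (A : Matrix (Fin (N + 1)) (Fin (N + 1)) k)
    (hA : A.det ≠ 0) (f : MvPolynomial (Fin (N + 1)) k) : sub A (sub A⁻¹ f) = f := by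
  rw [← AlgHom.comp_apply, sub_sub, Matrix.nonsing_inv_mul _ (isUnit_iff_ne_zero.mpr hA), sub_one,
    AlgHom.id_apply]

lemma eval_sub {k : Type} [Field k] {N : ℕ} (A : Matrix (Fin (N + 1)) (Fin (N + 1)) k)
    (f : MvPolynomial (Fin (N + 1)) k) (l : Fin (N + 1)) :
    eval (Pi.single l 1) (sub A f) = eval (fun i => A i l) f := by
  have h : (eval (Pi.single l 1 : Fin (N + 1) → k)).comp (sub A).toRingHom
      = eval (fun i => A i l) := by
    apply MvPolynomial.ringHom_ext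
    · intro a
      simp [sub]
    · intro j
      simp [sub, Pi.single_apply]
  exact RingHom.congr_fun h f

lemma sub_hom {k : Type} [Field k] {N : ℕ} (A : Matrix (Fin (N + 1)) (Fin (N + 1)) k)
    {f : MvPolynomial (Fin (N + 1)) k} {m : ℕ} (hf : f.IsHomogeneous m) :
    (sub A f).IsHomogeneous m := by
  have h := hf.aeval (n := 1) (fun j => ∑ i, C (A j i) * X i) (fun j =>
    IsHomogeneous.sum _ _ _ (fun i _ => isHomogeneous_C_mul_X _ _))
  rwa [one_mul] at h

/-! ### Homogeneity of values -/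

lemma aeval_smul_hom {R S : Type} [CommRing R] [CommRing S] [Algebra R S] {σ : Type} (v : σ → S)
    (c : S) {f : MvPolynomial σ R} {m : ℕ} (hf : f.IsHomogeneous m) :
    aeval (fun i => c * v i) f = c ^ m * aeval v f := by
  rw [aeval_def, aeval_def, eval₂_eq, eval₂_eq, Finset.mul_sum]
  refine Finset.sum_congr rfl fun d hd => ?_
  have h1 : ∑ i ∈ d.support, d i = m := by
    have := hf (mem_support_iff.mp hd)
    rw [Finsupp.weight_apply] at this
    simpa [Finsupp.sum] using this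
  simp only [mul_pow, Finset.prod_mul_distrib]
  rw [Finset.prod_pow_eq_pow_sum, h1]
  ring

/-! ### A good specialisation -/

lemma exists_spec {N : ℕ} (hN : 0 < N) {f : MvPolynomial (Fin (N + 1)) ℚ} (hf : f ≠ 0) {m : ℕ}
    (hm : f.IsHomogeneous m) :
    ∃ A : Matrix (Fin (N + 1)) (Fin (N + 1)) ℚ, aeval (fun i => A.adjugate i 0) f ≠ 0 := by
  have h0 : f * X 0 ≠ 0 := mul_ne_zero hf (X_ne_zero _)
  obtain ⟨p, hp⟩ : ∃ p, eval p (f * X 0) ≠ 0 := by
    by_contra hcon
    push Not at hcon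
    exact h0 (MvPolynomial.funext fun p => by rw [hcon p, map_zero])
  rw [map_mul, eval_X] at hp
  have hf0 : eval p f ≠ 0 := left_ne_zero_of_mul hp
  have hp0 : p 0 ≠ 0 := right_ne_zero_of_mul hp
  set B : Matrix (Fin (N + 1)) (Fin (N + 1)) ℚ := (1 : Matrix _ _ ℚ).updateCol 0 p with hB
  have hdet : B.det = p 0 := by
    rw [hB, ← Matrix.cramer_apply, Matrix.cramer_one]
    rfl
  refine ⟨B.adjugate, ?_⟩
  rw [Matrix.adjugate_adjugate B (by rw [Fintype.card_fin]; omega)]
  have h1 : (fun i => (B.det ^ (Fintype.card (Fin (N + 1)) - 2) • B) i 0)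
      = fun i => B.det ^ (Fintype.card (Fin (N + 1)) - 2) * p i := by
    funext i
    rw [Matrix.smul_apply, smul_eq_mul, hB, Matrix.updateCol_self]
  rw [h1, aeval_smul_hom _ _ hm]
  refine mul_ne_zero (pow_ne_zero _ (pow_ne_zero _ ?_)) ?_
  · rw [hdet]; exact hp0
  · rwa [MvPolynomial.aeval_eq_eval] 

section

variable {N : ℕ} {τ : Type} {k : Type} [Field k] [CharZero k]
  {η : Fin (N + 1) → Fin (N + 1) → k} {lam : Fin (N + 1) → τ → k}

lemma det_ne (hg : Gen η lam) : (Matrix.of η).det ≠ 0 := by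
  intro h
  let HX : Matrix (Fin (N + 1)) (Fin (N + 1))
    (MvPolynomial ((Fin (N + 1) × Fin (N + 1)) ⊕ (Fin (N + 1) × τ)) ℚ) :=
    Matrix.of fun a b => X (Sum.inl (a, b))
  have h1 : aeval (Sum.elim (fun z : Fin (N + 1) × Fin (N + 1) => η z.1 z.2)
    (fun z : Fin (N + 1) × τ => lam z.1 z.2)) HX.det = (0 : k) := by
    rw [AlgHom.map_det, ← h]
    congr 1
    ext a b
    simp [HX]
  have h2 : HX.det = 0 := hg (by rw [h1, map_zero])
  have h3 : aeval (Sum.elim (fun z : Fin (N + 1) × Fin (N + 1) =>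
    (1 : Matrix (Fin (N + 1)) (Fin (N + 1)) ℚ) z.1 z.2)
    (fun z : Fin (N + 1) × τ => (0 : ℚ))) HX.det = (1 : ℚ) := by
    rw [AlgHom.map_det, ← Matrix.det_one (n := Fin (N + 1)) (R := ℚ)]
    congr 1
    ext a b
    simp [HX]
  rw [h2, map_zero] at h3
  exact zero_ne_one h3

/-- the pencils do not vanish at the first column of the inverse matrix -/
lemma value_ne (hN : 0 < N) {f g : MvPolynomial (Fin (N + 1)) ℚ} (hf : f ≠ 0) {m : ℕ}
    (hfm : f.IsHomogeneous m) (hgm : g.IsHomogeneous m) (hg : Gen η lam) (j : Fin (N + 1)) (t : τ) :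
    eval (fun i => (Matrix.of η)⁻¹ i 0) (MvPolynomial.map (algebraMap ℚ k) f
      - C (lam j t) * MvPolynomial.map (algebraMap ℚ k) g) ≠ 0 := by
  intro h
  have hd := det_ne hg
  set H : Matrix (Fin (N + 1)) (Fin (N + 1)) k := Matrix.of η with hH
  let HX : Matrix (Fin (N + 1)) (Fin (N + 1))
    (MvPolynomial ((Fin (N + 1) × Fin (N + 1)) ⊕ (Fin (N + 1) × τ)) ℚ) :=
    Matrix.of fun a b => X (Sum.inl (a, b))
  let R : MvPolynomial ((Fin (N + 1) × Fin (N + 1)) ⊕ (Fin (N + 1) × τ)) ℚ :=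
    aeval (fun i => HX.adjugate i 0) f - X (Sum.inr (j, t)) * aeval (fun i => HX.adjugate i 0) g
  have hadj : ∀ i, H.adjugate i 0 = H.det * H⁻¹ i 0 := by
    intro i
    rw [Matrix.inv_def, Matrix.smul_apply, smul_eq_mul, Ring.inverse_eq_inv', ← mul_assoc,
      mul_inv_cancel₀ hd, one_mul]
  have hev : ∀ F : MvPolynomial (Fin (N + 1)) ℚ, F.IsHomogeneous m →
      aeval (fun i => H.adjugate i 0) F
        = H.det ^ m * eval (fun i => H⁻¹ i 0) (MvPolynomial.map (algebraMap ℚ k) F) := by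
    intro F hF
    have h1 : (fun i => H.adjugate i 0) = fun i => H.det * H⁻¹ i 0 := funext hadj
    rw [h1, aeval_smul_hom _ _ hF, eval_map, aeval_def]
  let ev : MvPolynomial ((Fin (N + 1) × Fin (N + 1)) ⊕ (Fin (N + 1) × τ)) ℚ →ₐ[ℚ] k :=
    aeval (Sum.elim (fun z : Fin (N + 1) × Fin (N + 1) => η z.1 z.2)
    (fun z : Fin (N + 1) × τ => lam z.1 z.2))
  have hevH : ∀ i, ev (HX.adjugate i 0) = H.adjugate i 0 := by
    intro i
    have h1 := AlgHom.map_adjugate ev HX
    have h2 : ev.mapMatrix HX = H := by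
      ext a b
      simp [ev, HX, hH]
    rw [h2] at h1
    exact congrFun (congrFun h1 i) 0
  have hcomp : ∀ F : MvPolynomial (Fin (N + 1)) ℚ, ev (aeval (fun i => HX.adjugate i 0) F)
      = aeval (fun i => H.adjugate i 0) F := by
    intro F
    have h1 : ev.comp (aeval (fun i => HX.adjugate i 0)) = aeval (fun i => H.adjugate i 0) := by
      apply MvPolynomial.algHom_ext
      intro i
      rw [AlgHom.comp_apply, aeval_X, aeval_X, hevH]
    exact AlgHom.congr_fun h1 F
  have hR : ev R = 0 := by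
    simp only [R]
    rw [map_sub, map_mul, hcomp, hcomp, hev f hfm, hev g hgm]
    have h1 : ev (X (Sum.inr (j, t))) = lam j t := by simp [ev]
    rw [h1]
    rw [map_sub, map_mul, eval_C] at h
    linear_combination H.det ^ m * h
  have hR0 : R = 0 := hg (by
    change ev R = ev 0
    rw [hR, map_zero])
  obtain ⟨A, hA⟩ := exists_spec hN hf hfm
  apply hA
  let ev' : MvPolynomial ((Fin (N + 1) × Fin (N + 1)) ⊕ (Fin (N + 1) × τ)) ℚ →ₐ[ℚ] ℚ :=
    aeval (Sum.elim (fun z : Fin (N + 1) × Fin (N + 1) => A z.1 z.2)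
    (fun z : Fin (N + 1) × τ => 0))
  have hevA : ∀ i, ev' (HX.adjugate i 0) = A.adjugate i 0 := by
    intro i
    have h1 := AlgHom.map_adjugate ev' HX
    have h2 : ev'.mapMatrix HX = A := by
      ext a b
      simp [ev', HX]
    rw [h2] at h1
    exact congrFun (congrFun h1 i) 0
  have hcomp' : ev' (aeval (fun i => HX.adjugate i 0) f) = aeval (fun i => A.adjugate i 0) f := by
    have h1 : ev'.comp (aeval (fun i => HX.adjugate i 0)) = aeval (fun i => A.adjugate i 0) := by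
      apply MvPolynomial.algHom_ext
      intro i
      rw [AlgHom.comp_apply, aeval_X, aeval_X, hevA]
    exact AlgHom.congr_fun h1 f
  have h3 : ev' R = 0 := by rw [hR0, map_zero]
  simp only [R] at h3
  rw [map_sub, map_mul, hcomp'] at h3
  have h4 : ev' (X (Sum.inr (j, t))) = 0 := by simp [ev']
  rw [h4, zero_mul, sub_zero] at h3
  exact h3

/-- the product of the pencils, `G j = ∏ t, (u t - lam j t * v t)` -/
noncomputable def GG [Fintype τ] (u v : τ → MvPolynomial (Fin (N + 1)) ℚ)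
    (lam : Fin (N + 1) → τ → k) (j : Fin (N + 1)) : MvPolynomial (Fin (N + 1)) k :=
  ∏ t, (MvPolynomial.map (algebraMap ℚ k) (u t)
    - C (lam j t) * MvPolynomial.map (algebraMap ℚ k) (v t))

lemma GG_hom [Fintype τ] {m : τ → ℕ} {u v : τ → MvPolynomial (Fin (N + 1)) ℚ}
    (hu : ∀ t, (u t).IsHomogeneous (m t)) (hv : ∀ t, (v t).IsHomogeneous (m t))
    (lam : Fin (N + 1) → τ → k) (j : Fin (N + 1)) : (GG u v lam j).IsHomogeneous (∑ t, m t) :=
  IsHomogeneous.prod _ _ _ (fun t _ => ((hu t).map _).sub (((hv t).map _).C_mul _))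

lemma yy_eq [Fintype τ] (u v : τ → MvPolynomial (Fin (N + 1)) ℚ) (M1 : ℕ)
    (η : Fin (N + 1) → Fin (N + 1) → k) (lam : Fin (N + 1) → τ → k) (j : Fin (N + 1)) :
    yy u v M1 η lam j = sub (Matrix.of η) (X j) * GG u v lam j ^ M1 := by
  rw [yy, sub_X, GG, Finset.prod_pow]
  rfl

/-- `h_i G_j ^ M1` is a combination of the sections -/
lemma expand [Fintype τ] [DecidableEq τ] (u v : τ → MvPolynomial (Fin (N + 1)) ℚ) (M1 : ℕ)
    (η : Fin (N + 1) → Fin (N + 1) → k) (lam : Fin (N + 1) → τ → k) (i j : Fin (N + 1)) :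
    ∃ c : Ix N τ M1 → k, sub (Matrix.of η) (X i) * GG u v lam j ^ M1
      = ∑ β, C (c β) * MvPolynomial.map (algebraMap ℚ k) (WW u v M1 β) := by
  refine ⟨fun β => η i β.1 * ∏ t, ((-lam j t) ^ (M1 - (β.2 t : ℕ)) * (M1.choose (β.2 t) : k)), ?_⟩
  have h1 : GG u v lam j ^ M1 = ∑ e : τ → Fin (M1 + 1), ∏ t,
      (C ((-lam j t) ^ (M1 - (e t : ℕ)) * (M1.choose (e t) : k)) *
        (MvPolynomial.map (algebraMap ℚ k) (u t) ^ (e t : ℕ) *
          MvPolynomial.map (algebraMap ℚ k) (v t) ^ (M1 - (e t : ℕ)))) := by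
    rw [GG, ← Finset.prod_pow]
    have h2 : ∀ t, (MvPolynomial.map (algebraMap ℚ k) (u t)
        - C (lam j t) * MvPolynomial.map (algebraMap ℚ k) (v t)) ^ M1
        = ∑ e : Fin (M1 + 1), C ((-lam j t) ^ (M1 - (e : ℕ)) * (M1.choose e : k)) *
        (MvPolynomial.map (algebraMap ℚ k) (u t) ^ (e : ℕ) *
          MvPolynomial.map (algebraMap ℚ k) (v t) ^ (M1 - (e : ℕ))) := by
      intro t
      rw [sub_eq_add_neg, ← neg_mul, ← map_neg, add_pow, Finset.sum_range]
      refine Finset.sum_congr rfl fun e _ => ?_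
      rw [mul_pow, map_mul, map_pow, map_natCast]
      ring
    rw [Finset.prod_congr rfl (fun t _ => h2 t), Finset.prod_univ_sum, Fintype.piFinset_univ]
  rw [h1, sub_X, Finset.sum_mul_sum, Fintype.sum_prod_type]
  refine Finset.sum_congr rfl fun l _ => Finset.sum_congr rfl fun e _ => ?_
  have h4 : MvPolynomial.map (algebraMap ℚ k) (WW u v M1 (l, e))
      = X l * ∏ t, (MvPolynomial.map (algebraMap ℚ k) (u t) ^ (e t : ℕ) *
          MvPolynomial.map (algebraMap ℚ k) (v t) ^ (M1 - (e t : ℕ))) := by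
    rw [WW, map_mul, map_X, map_prod]
    simp only [map_mul, map_pow]
  rw [h4, Finset.prod_mul_distrib]
  rw [map_mul, map_prod]
  change C (η i l) * X l * _ = _
  ring

end

/-! ### Transport of valuations -/

lemma val_comap {K L : Type} [Field K] [Field L] (Φ : K ≃+* L) (O : ValuationSubring K) (x y : K) :
    (O.comap Φ.symm.toRingHom).valuation (Φ x) ≤ (O.comap Φ.symm.toRingHom).valuation (Φ y) ↔
      O.valuation x ≤ O.valuation y := by
  rw [ValuationSubring.valuation_le_iff, ValuationSubring.valuation_le_iff]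
  constructor
  · rintro ⟨⟨a, ha⟩, h⟩
    rw [ValuationSubring.mem_comap] at ha
    refine ⟨⟨Φ.symm a, ha⟩, Φ.injective ?_⟩
    simp only at h ⊢
    rw [map_mul, Φ.apply_symm_apply, h]
  · rintro ⟨⟨a, ha⟩, h⟩
    refine ⟨⟨Φ a, ?_⟩, ?_⟩
    · rw [ValuationSubring.mem_comap]
      change Φ.symm (Φ a) ∈ O
      rwa [Φ.symm_apply_apply]
    · simp only at h ⊢
      rw [← map_mul, h]

lemma transport {k E : Type} [Field k] [Field E] [Algebra k E] (Φ : E ≃ₐ[k] E)
    (K1 K2 : IntermediateField k E) (h : K1.map (Φ : E →ₐ[k] E) = K2)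
    (hf : FiniteDimensional K1 E) :
    FiniteDimensional K2 E ∧ Module.finrank K2 E = Module.finrank K1 E := by
  subst h
  let ι : K1 ≃ₐ[k] K1.map (Φ : E →ₐ[k] E) := IntermediateField.intermediateFieldMap Φ K1
  have hrank : Module.finrank K1 E = Module.finrank (K1.map (Φ : E →ₐ[k] E)) E := by
    refine Algebra.finrank_eq_of_equiv_equiv ι.toRingEquiv Φ.toRingEquiv ?_
    ext x
    rfl
  refine ⟨?_, hrank.symm⟩
  apply Module.finite_of_finrank_pos
  rw [← hrank]
  exact Module.finrank_pos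

lemma ai_transport {k σ ι : Type} [Field k] (φ : MvPolynomial σ k ≃ₐ[k] MvPolynomial σ k)
    (y z : ι → MvPolynomial σ k) (h : AlgebraicIndependent k y) (hz : ∀ j, φ (y j) = z j) :
    AlgebraicIndependent k z := by
  have h1 := h.map' (f := (φ : MvPolynomial σ k →ₐ[k] MvPolynomial σ k))
    (fun a b h => φ.injective h)
  have h2 : z = (φ : MvPolynomial σ k →ₐ[k] MvPolynomial σ k) ∘ y := funext fun j => (hz j).symm
  rw [h2]
  exact h1

/-- **The generic projection**, from the statement in coordinates -/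
theorem t_proj (h1 : S_bpf) (h2 : S_deg) : ∀ (N : ℕ) (τ : Type) [Fintype τ]
    (m : τ → ℕ) (u v : τ → MvPolynomial (Fin (N + 1)) ℚ) (M1 : ℕ) (k : Type) [Field k] [CharZero k]
    (η : Fin (N + 1) → Fin (N + 1) → k) (lam : Fin (N + 1) → τ → k),
    0 < N → 1 < M1 → (∀ t, (u t).IsHomogeneous (m t)) → (∀ t, (v t).IsHomogeneous (m t)) →
    (∀ t, u t ≠ 0) → (∀ t, v t ≠ 0) → Gen η lam →
      AlgebraicIndependent k (yy u v M1 η lam) ∧
      FiniteDimensional (Fy (yy u v M1 η lam)) (FractionRing (MvPolynomial (Fin (N + 1)) k)) ∧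
      ∀ ℓ : ℕ, ℓ.Prime → ℓ ∣ M1 → ¬ ℓ ∣ Module.finrank (Fy (yy u v M1 η lam))
        (FractionRing (MvPolynomial (Fin (N + 1)) k)) := by
  classical
  intro N τ _ m u v M1 k _ _ η lam hN hM hu hv hu0 hv0 hg
  have hd := det_ne hg
  set H : Matrix (Fin (N + 1)) (Fin (N + 1)) k := Matrix.of η with hH
  let φ := subE H hd
  let E := FractionRing (MvPolynomial (Fin (N + 1)) k)
  let g : Fin (N + 1) → MvPolynomial (Fin (N + 1)) k := fun j => sub H⁻¹ (GG u v lam j)
  have hφg : ∀ j, φ (g j) = GG u v lam j := fun j => sub_sub_inv H hd _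
  have hφy : ∀ j, φ (X j * g j ^ M1) = yy u v M1 η lam j := by
    intro j
    rw [map_mul, map_pow, hφg, yy_eq]
    rfl
  let Φ : E ≃ₐ[k] E := IsFractionRing.algEquivOfAlgEquiv φ
  have hΦ : ∀ f : MvPolynomial (Fin (N + 1)) k, Φ (algebraMap _ E f) = algebraMap _ E (φ f) :=
    fun f => IsFractionRing.algEquivOfAlgEquiv_algebraMap φ f
  -- the hypotheses of `S_deg`
  have hg1 : ∀ j, (g j).IsHomogeneous (∑ t, m t) := fun j => sub_hom _ (GG_hom hu hv lam j)
  have hg2 : ∀ j, eval (Pi.single 0 1) (g j) ≠ 0 := by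
    intro j
    simp only [g]
    rw [eval_sub, GG, map_prod]
    exact Finset.prod_ne_zero_iff.mpr fun t _ => value_ne hN (hu0 t) (hu t) (hv t) hg j t
  have hg3 : ∀ O : ValuationSubring (FractionRing (MvPolynomial (Fin (N + 1)) k)),
      (∀ a : k, algebraMap k _ a ∈ O) → ∃ j0, ∀ i j,
        vl O (X i * g j ^ M1) ≤ vl O (X j0 * g j0 ^ M1) := by
    intro O hO
    let O' : ValuationSubring E := O.comap Φ.symm.toRingEquiv.toRingHom
    have hO' : ∀ a : k, algebraMap k E a ∈ O' := by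
      intro a
      rw [ValuationSubring.mem_comap]
      have h3 : Φ.symm.toRingEquiv.toRingHom (algebraMap k E a) = algebraMap k E a :=
        Φ.symm.commutes a
      rw [h3]
      exact hO a
    obtain ⟨j0, hj0⟩ := h1 N τ m u v M1 k η lam hu hv hu0 hv0 hg O' hO'
    refine ⟨j0, fun i j => ?_⟩
    have h4 := (val_comap Φ.toRingEquiv O (algebraMap _ E (X i * g j ^ M1))
      (algebraMap _ E (X j0 * g j0 ^ M1))).mp
    apply h4
    change O'.valuation (Φ _) ≤ O'.valuation (Φ _)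
    rw [hΦ, hΦ, hφy]
    have h5 : φ (X i * g j ^ M1) = sub H (X i) * GG u v lam j ^ M1 := by
      rw [map_mul, map_pow, hφg]
      rfl
    obtain ⟨c, hc⟩ := expand u v M1 η lam i j
    rw [h5, hc, map_sum]
    refine Valuation.map_sum_le _ fun β _ => ?_
    rw [map_mul, map_mul]
    have h6 : O'.valuation (algebraMap (MvPolynomial (Fin (N + 1)) k) E (C (c β))) ≤ 1 := by
      rw [ValuationSubring.valuation_le_one_iff]
      have h7 : algebraMap (MvPolynomial (Fin (N + 1)) k) E (C (c β)) = algebraMap k E (c β) :=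
        (IsScalarTower.algebraMap_apply k (MvPolynomial (Fin (N + 1)) k) E (c β)).symm
      rw [h7]
      exact hO' _
    exact (mul_le_mul' h6 (hj0 β)).trans_eq (one_mul _)
  have key := fun ℓ (hℓ : ℓ.Prime) (hℓM : ℓ ∣ M1) =>
    h2 k N M1 (∑ t, m t) ℓ hN hℓ hℓM (by omega) g hg1 hg2 hg3
  -- transport
  have hmap : (Fy (fun j => X j * g j ^ M1)).map (Φ : E →ₐ[k] E) = Fy (yy u v M1 η lam) := by
    rw [Fy, IntermediateField.adjoin_map, Fy]
    congr 1
    rw [← Set.range_comp]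
    congr 1
    funext j
    change Φ (algebraMap _ E (X j * g j ^ M1)) = _
    rw [hΦ, hφy]
  obtain ⟨ℓ, hℓ, hℓM⟩ := Nat.exists_prime_and_dvd (n := M1) (by omega)
  obtain ⟨ha, hb, -⟩ := key ℓ hℓ hℓM
  have htr := transport Φ _ _ hmap hb
  refine ⟨ai_transport φ _ _ ha hφy, htr.1, ?_⟩
  intro ℓ' hℓ' hℓM' hdvd
  exact (key ℓ' hℓ' hℓM').2.2 (htr.2 ▸ hdvd)

end Pool.Agent.Helper82.VD
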