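import Mathlib
import Pool.Agent.Helper14D.Stm
import Pool.Agent.Helper82.VD.Proj
import Pool.Agent.Helper24.VD.Alg

/-!
# Part (i) of `S_deg`: independence and finiteness
-/

set_option autoImplicit false

open MvPolynomial

namespace Pool.Agent.Helper82.VD

open Pool.Agent.Helper14D

section core

variable {k E : Type} [Field k] [Field E] [Algebra k E] {N : ℕ}

/-- algebraicity of the coordinates from the algebraicity of the `x i * g 0 ^ M1` -/
theorem alg_core (x : Fin (N + 1) → E) (F : IntermediateField k E) (M1 G0 : ℕ)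
    (g : MvPolynomial (Fin (N + 1)) k) (hg : g.IsHomogeneous G0) (hx0 : x 0 ≠ 0)
    (hne : aeval x g ≠ 0) (hy : ∀ i, IsAlgebraic F (x i * (aeval x g) ^ M1)) (i : Fin (N + 1)) :
    IsAlgebraic F (x i) := by
  let A := algebraicClosure F E
  have hA : ∀ z : E, z ∈ A ↔ IsAlgebraic F z := fun z => mem_algebraicClosure_iff
  have hkA : ∀ a : k, algebraMap k E a ∈ A := by
    intro a
    rw [hA]
    have : algebraMap k E a = algebraMap F E (algebraMap k F a) := rfl
    rw [this]
    exact isAlgebraic_algebraMap _
  let r : Fin (N + 1) → E := fun i => x i / x 0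
  have hr : ∀ i, r i ∈ A := by
    intro i
    have h1 : r i = (x i * (aeval x g) ^ M1) / (x 0 * (aeval x g) ^ M1) := by
      simp only [r]
      rw [mul_div_mul_right _ _ (pow_ne_zero _ hne)]
    rw [h1]
    exact A.div_mem ((hA _).mpr (hy i)) ((hA _).mpr (hy 0))
  have hpr : ∀ p : MvPolynomial (Fin (N + 1)) k, aeval r p ∈ A := by
    intro p
    induction p using MvPolynomial.induction_on with
    | C a => rw [aeval_C]; exact hkA a
    | add p q hp hq => rw [map_add]; exact A.add_mem hp hq
    | mul_X p i hp => rw [map_mul, aeval_X]; exact A.mul_mem hp (hr i)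
  have hxr : ∀ i, x i = x 0 * r i := fun i => by
    simp only [r]; rw [mul_div_cancel₀ _ hx0]
  have hgx : aeval x g = x 0 ^ G0 * aeval r g := by
    rw [← aeval_smul_hom _ _ hg]
    congr 2
    funext i
    exact hxr i
  have hgr : aeval r g ≠ 0 := by
    intro h
    rw [hgx, h, mul_zero] at hne
    exact hne rfl
  have h0 : x 0 ^ (1 + G0 * M1) ∈ A := by
    have h1 : x 0 ^ (1 + G0 * M1) = (x 0 * (aeval x g) ^ M1) / (aeval r g) ^ M1 := by
      rw [eq_div_iff (pow_ne_zero _ hgr), hgx, mul_pow, ← pow_mul]
      ring
    rw [h1]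
    exact A.div_mem ((hA _).mpr (hy 0)) (pow_mem (hpr g) M1)
  have h0' : x 0 ∈ A := by
    rw [hA] at h0 ⊢
    exact h0.of_pow (by omega)
  rw [← hA, hxr]
  exact A.mul_mem h0' (hr i)

/-- a field generated by finitely many algebraic elements -/
theorem fin_core (x : Fin (N + 1) → E) (F : IntermediateField k E)
    (hgen : ∀ z : E, ∃ p q : MvPolynomial (Fin (N + 1)) k, z = aeval x p / aeval x q)
    (h : ∀ i, IsAlgebraic F (x i)) : FiniteDimensional F E := by
  have h1 : IntermediateField.adjoin F (Set.range x) = ⊤ := by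
    rw [eq_top_iff]
    intro z _
    obtain ⟨p, q, rfl⟩ := hgen z
    have hp : ∀ p : MvPolynomial (Fin (N + 1)) k,
        aeval x p ∈ IntermediateField.adjoin F (Set.range x) := by
      intro p
      induction p using MvPolynomial.induction_on with
      | C a =>
        rw [aeval_C]
        have : algebraMap k E a = algebraMap F E (algebraMap k F a) := rfl
        rw [this]
        exact IntermediateField.algebraMap_mem _ _
      | add p q hp hq => rw [map_add]; exact add_mem hp hq
      | mul_X p i hp =>
        rw [map_mul, aeval_X]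
        exact mul_mem hp (IntermediateField.subset_adjoin F _ ⟨i, rfl⟩)
    exact div_mem (hp p) (hp q)
  have h2 : FiniteDimensional F (IntermediateField.adjoin F (Set.range x)) := by
    apply IntermediateField.finiteDimensional_adjoin
    rintro _ ⟨i, rfl⟩
    exact (h i).isIntegral
  rw [h1] at h2
  exact Module.Finite.equiv (IntermediateField.topEquiv (F := F) (E := E)).toLinearEquiv

open scoped IntermediateField.algebraAdjoinAdjoin in
/-- `N + 1` elements over which everything is algebraic are independent -/
theorem ind_core (x y : Fin (N + 1) → E) (hx : AlgebraicIndependent k x)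
    (h : Algebra.IsAlgebraic (IntermediateField.adjoin k (Set.range y)) E) :
    AlgebraicIndependent k y := by
  have h1 : Algebra.IsAlgebraic (Algebra.adjoin k (Set.range y)) E := by
    refine ⟨fun z => ?_⟩
    exact (IsFractionRing.isAlgebraic_iff (Algebra.adjoin k (Set.range y))
      (IntermediateField.adjoin k (Set.range y)) E).mpr (h.isAlgebraic z)
  have h2 : Cardinal.mk (Fin (N + 1)) ≤ Algebra.trdeg k E := by
    have := hx.cardinalMk_le_trdeg
    simpa using this
  exact (Algebra.IsAlgebraic.isTranscendenceBasis_of_le_trdeg_of_finite k y h2).1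

end core

theorem t_fin (k : Type) [Field k] (N M1 G0 : ℕ)
    (g : Fin (N + 1) → MvPolynomial (Fin (N + 1)) k)
    (hg : ∀ j, (g j).IsHomogeneous G0) (he : ∀ j, eval (Pi.single 0 1) (g j) ≠ 0)
    (hb : ∀ O : ValuationSubring (FractionRing (MvPolynomial (Fin (N + 1)) k)),
      (∀ a : k, algebraMap k _ a ∈ O) → ∃ j0, ∀ i j,
        vl O (X i * g j ^ M1) ≤ vl O (X j0 * g j0 ^ M1)) :
    AlgebraicIndependent k (fun j => X j * g j ^ M1) ∧
    FiniteDimensional (Fy (fun j => X j * g j ^ M1))
      (FractionRing (MvPolynomial (Fin (N + 1)) k)) := by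
  let E := FractionRing (MvPolynomial (Fin (N + 1)) k)
  let x : Fin (N + 1) → E := fun i => algebraMap (MvPolynomial (Fin (N + 1)) k) E (X i)
  have hxa : ∀ p : MvPolynomial (Fin (N + 1)) k, aeval x p = algebraMap _ E p := by
    intro p
    have h1 : (aeval x : MvPolynomial (Fin (N + 1)) k →ₐ[k] E)
        = Algebra.algHom k (MvPolynomial (Fin (N + 1)) k) E := by
      apply MvPolynomial.algHom_ext
      intro i
      rw [aeval_X]
      rfl
    exact AlgHom.congr_fun h1 p
  have hinj : Function.Injective (algebraMap (MvPolynomial (Fin (N + 1)) k) E) :=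
    IsFractionRing.injective _ _
  set F := Fy (fun j => X j * g j ^ M1) with hF
  have hyF : ∀ j, algebraMap (MvPolynomial (Fin (N + 1)) k) E (X j * g j ^ M1) ∈ F := fun j =>
    IntermediateField.subset_adjoin k _ ⟨j, rfl⟩
  have hkF : ∀ a : k, algebraMap k E a ∈ F := fun a => F.algebraMap_mem a
  have hint : ∀ i j, IsAlgebraic F (algebraMap (MvPolynomial (Fin (N + 1)) k) E (X i * g j ^ M1)) := by
    intro i j
    have h1 : IsIntegral F.toSubfield.toSubring
        (algebraMap (MvPolynomial (Fin (N + 1)) k) E (X i * g j ^ M1)) := by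
      apply Pool.Agent.Helper24.VD.t_val
      intro O hO
      obtain ⟨j0, hj0⟩ := hb O (fun a => hO (hkF a))
      rw [← ValuationSubring.valuation_le_one_iff]
      refine (hj0 i j).trans ?_
      rw [ValuationSubring.valuation_le_one_iff]
      exact hO (hyF j0)
    have h2 : IsIntegral F (algebraMap (MvPolynomial (Fin (N + 1)) k) E (X i * g j ^ M1)) := by
      let ι : F.toSubfield.toSubring →+* F :=
        { toFun := fun z => ⟨z.1, z.2⟩
          map_one' := rfl
          map_mul' := fun _ _ => rfl
          map_zero' := rfl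
          map_add' := fun _ _ => rfl }
      exact IsIntegral.map_of_comp_eq ι (RingHom.id E) (by ext z; rfl) h1
    exact h2.isAlgebraic
  have hg0 : ∀ j, g j ≠ 0 := by
    intro j h
    apply he j
    rw [h, map_zero]
  have hx0 : x 0 ≠ 0 := by
    intro h
    exact X_ne_zero (R := k) (0 : Fin (N + 1)) (hinj (by rw [map_zero]; exact h))
  have hne : aeval x (g 0) ≠ 0 := by
    rw [hxa]
    intro h
    exact hg0 0 (hinj (by rw [map_zero]; exact h))
  have halg : ∀ i, IsAlgebraic F (x i) := by
    apply alg_core x F M1 G0 (g 0) (hg 0) hx0 hne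
    intro i
    rw [hxa]
    have := hint i 0
    rwa [map_mul, map_pow] at this
  have hgen : ∀ z : E, ∃ p q : MvPolynomial (Fin (N + 1)) k, z = aeval x p / aeval x q := by
    intro z
    obtain ⟨p, q, -, rfl⟩ := IsFractionRing.div_surjective (MvPolynomial (Fin (N + 1)) k) z
    exact ⟨p, q, by rw [hxa, hxa]⟩
  have hfin : FiniteDimensional F E := fin_core x F hgen halg
  refine ⟨?_, hfin⟩
  have hxind : AlgebraicIndependent k x := by
    have h1 : AlgebraicIndependent k (X : Fin (N + 1) → MvPolynomial (Fin (N + 1)) k) :=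
      MvPolynomial.algebraicIndependent_X _ _
    exact h1.map' (f := Algebra.algHom k (MvPolynomial (Fin (N + 1)) k) E) hinj
  have h2 := ind_core x (fun j => algebraMap (MvPolynomial (Fin (N + 1)) k) E (X j * g j ^ M1))
    hxind (Algebra.IsAlgebraic.of_finite F E)
  exact AlgebraicIndependent.of_comp (Algebra.algHom k (MvPolynomial (Fin (N + 1)) k) E) h2

end Pool.Agent.Helper82.VD
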